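import Mathlib
import Pool.Agent.H.MP_891d8f_lc.A

set_option autoImplicit false

namespace Pool.Agent.Results.MP_891d8f_lc.No

open Pool.Agent.H.MP_891d8f_lc

theorem result (h : ¬ KA) : ∃ (n : ℕ → ℕ) (t : ∀ k, Fin (2 * n k) → Bool),
    (∀ k, DT (n k) (t k) ∧ Dp (t k) 1) ∧ ∀ C, CS C → ¬ Gs C n t :=
  main h

end Pool.Agent.Results.MP_891d8f_lc.No
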